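import Pool.Agent.helper32.EB.Defs2
import Pool.Agent.helper6.BT.LX

/-! # Project BT, module CA: comparison with super and subsolutions -/

open MeasureTheory ProbabilityTheory Filter Topology
open scoped ENNReal NNReal

namespace Pool.Agent.helper32.EB

theorem CA_R_pos (G : Geo) (hG : G.OK) (k : ℕ) (hk : k ≤ G.K) : 0 < G.R k := by
  have hρ : 0 < G.ρ := by linarith [hG.hpos, hG.hρ]
  obtain ⟨d, hd⟩ := Nat.exists_eq_add_of_le hk
  induction d generalizing k with
  | zero => 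
    have : k = G.K := by omega
    rw [this, hG.RK]; exact hρ
  | succ d ih =>
    have h1 := ih (k + 1) (by omega) (by omega)
    have h2 := hG.dec k (by omega)
    linarith

theorem CA_R_lt (G : Geo) (hG : G.OK) (k : ℕ) (h1 : 1 ≤ k) (hk : k ≤ G.K) :
    G.R k < G.R (k - 1) := by
  have h2 := CA_R_pos G hG k hk
  have h3 := hG.dec (k - 1) (by omega)
  have h4 : k - 1 + 1 = k := by omega
  rw [h4] at h3
  linarith

theorem CA_R_le (G : Geo) (hG : G.OK) (k : ℕ) (hk : k ≤ G.K) : G.R k ≤ 2 * G.r := by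
  induction k with
  | zero => rw [hG.R0]
  | succ k ih =>
    have h1 := ih (by omega)
    have h2 := CA_R_lt G hG (k + 1) (by omega) hk
    simp only [Nat.add_sub_cancel] at h2
    linarith

theorem CA_r_pos (G : Geo) (hG : G.OK) : 0 < G.r := by
  have h1 := CA_R_pos G hG 0 (Nat.zero_le _)
  rw [hG.R0] at h1
  linarith

theorem updH_val (G : Geo) (hG : G.OK) (z : ℂ) (s : HS G.J) : Val G z (updH G z s) := by
  classical
  refine ⟨?_, ?_⟩
  · intro j hj
    simp only [updH, upd, Finset.mem_filter] at hj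
    exact hj.2
  · intro j k h1 hk
    have hlt := CA_R_lt G hG k h1 hk
    simp only [updH]
    refine ⟨?_, ?_⟩
    · intro h
      split_ifs at h with hs
      · simpa using h
      · have : ‖z - G.x j‖ ≤ G.R k := by simpa using h
        linarith
    · intro h
      split_ifs at h with hs
      · have : G.R (k - 1) ≤ ‖z - G.x j‖ := by simpa using h
        linarith
      · simpa using h

theorem updH_idle (G : Geo) (hG : G.OK) (z : ℂ) (s : HS G.J) (hz : G.R' ≤ ‖z‖) :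
    Idle G (updH G z s) := by
  classical
  intro j k h1 hk
  have hr := CA_r_pos G hG
  have hx := hG.xs j
  have hb := hG.big
  have h2 : ‖z‖ ≤ ‖z - G.x j‖ + ‖G.x j‖ := by
    have := norm_add_le (z - G.x j) (G.x j)
    simpa using this
  have h3 := CA_R_le G hG k hk
  have h4 := CA_R_le G hG (k - 1) (by omega)
  simp only [updH]
  split_ifs with hs
  · simp only [decide_eq_false_iff_not, not_lt]
    linarith
  · simp only [decide_eq_false_iff_not, not_le]
    linarith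

theorem CA_FN_out (G : Geo) (ν : Measure ℂ) (V : Finset (Fin G.J) → ℝ≥0∞) (N : ℕ) (z : ℂ)
    (U : Finset (Fin G.J)) (hz : G.R' ≤ ‖z‖) : FN G ν V N z U = V U := by
  cases N with
  | zero => simp only [FN]; rw [if_neg (not_lt.2 hz)]
  | succ N => simp only [FN]; rw [if_neg (not_lt.2 hz)]

theorem CA_FN_mono_succ (G : Geo) (ν : Measure ℂ) (V : Finset (Fin G.J) → ℝ≥0∞) (N : ℕ) (z : ℂ)
    (U : Finset (Fin G.J)) : FN G ν V N z U ≤ FN G ν V (N + 1) z U := by
  induction N generalizing z U with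
  | zero =>
    by_cases hz : ‖z‖ < G.R'
    · simp only [FN]; rw [if_pos hz]; exact zero_le
    · rw [CA_FN_out G ν V _ z U (not_lt.1 hz), CA_FN_out G ν V _ z U (not_lt.1 hz)]
  | succ N ih =>
    by_cases hz : ‖z‖ < G.R'
    · have e1 : FN G ν V (N + 1) z U = ∫⁻ y, FN G ν V N (z + y) (upd G (z + y) U) ∂ν := by
        rw [FN, if_pos hz]
      have e2 : FN G ν V (N + 1 + 1) z U =
          ∫⁻ y, FN G ν V (N + 1) (z + y) (upd G (z + y) U) ∂ν := by
        rw [FN, if_pos hz]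
      rw [e1, e2]
      exact lintegral_mono fun y => ih _ _
    · rw [CA_FN_out G ν V _ z U (not_lt.1 hz), CA_FN_out G ν V _ z U (not_lt.1 hz)]

theorem CA_FN_mono (G : Geo) (ν : Measure ℂ) (V : Finset (Fin G.J) → ℝ≥0∞) (z : ℂ)
    (U : Finset (Fin G.J)) : Monotone (fun N => FN G ν V N z U) :=
  monotone_nat_of_le_succ fun N => CA_FN_mono_succ G ν V N z U

theorem CA_eN_tendsto (G : Geo) (hG : G.OK) {ν : Measure ℂ} (hν : RotStep ν G.h) (z : ℂ) :
    Tendsto (fun N => eN G ν N z) atTop (𝓝 0) := by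
  set a : ℝ≥0∞ := ENNReal.ofReal (∫ y, ‖y‖ ^ 2 ∂ν) with ha
  set b : ℝ≥0∞ := ENNReal.ofReal ((G.R' + G.h) ^ 2) with hb
  have ha0 : a ≠ 0 := by
    rw [ha]; simpa using hν.nondeg
  have hat : a ≠ ⊤ := ENNReal.ofReal_ne_top
  have hbt : b ≠ ⊤ := ENNReal.ofReal_ne_top
  have h1 : ∀ N : ℕ, eN G ν N z ≤ (b / a) * (N : ℝ≥0∞)⁻¹ ∨ N = 0 := by
    intro N
    rcases Nat.eq_zero_or_pos N with h0 | h0
    · exact Or.inr h0
    left
    have h2 := eN_bound G hG hν z N
    have hN0 : (N : ℝ≥0∞) ≠ 0 := by exact_mod_cast h0.ne'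
    have hNt : (N : ℝ≥0∞) ≠ ⊤ := ENNReal.natCast_ne_top N
    have h3 : eN G ν N z ≤ b / (N * a) := by
      rw [ENNReal.le_div_iff_mul_le (Or.inl (mul_ne_zero hN0 ha0))
        (Or.inl (ENNReal.mul_ne_top hNt hat))]
      calc eN G ν N z * (N * a) = N * a * eN G ν N z := by ring
        _ ≤ b := h2
    refine h3.trans (le_of_eq ?_)
    rw [div_eq_mul_inv, div_eq_mul_inv, ENNReal.mul_inv (Or.inl hN0) (Or.inl hNt)]
    ring
  have h4 : Tendsto (fun N : ℕ => (b / a) * (N : ℝ≥0∞)⁻¹) atTop (𝓝 ((b / a) * 0)) :=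
    ENNReal.Tendsto.const_mul ENNReal.tendsto_inv_nat_nhds_zero
      (Or.inr (ENNReal.div_ne_top hbt ha0))
  rw [mul_zero] at h4
  refine tendsto_of_tendsto_of_tendsto_of_le_of_le' tendsto_const_nhds h4
    (Eventually.of_forall fun N => zero_le) ?_
  filter_upwards [eventually_gt_atTop 0] with N hN
  rcases h1 N with h | h
  · exact h
  · omega

theorem CA_finite (G : Geo) (hG : G.OK) {ν : Measure ℂ} (hν : RotStep ν G.h)
    {Pa Qa : ℕ → ℂ → HS G.J → ℝ≥0∞} {Pi Qi : ℕ → HS G.J → ℝ≥0∞} {C : ℝ≥0∞} (hC : C ≠ ⊤)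
    (hP : SuperC G ν Pa Pi) (hQ : SubC G ν Qa Qi C) (m : ℕ)
    (Hm : ∀ s : HS G.J, Idle G s → Vv G ν m s.U + Qi m s ≤ 1 + Pi m s) (N : ℕ) (z : ℂ)
    (s : HS G.J) (hz : ‖z‖ < G.R') (hs : Val G z s) :
    FN G ν (Vv G ν m) N z s.U + Qa m z s ≤ 1 + Pa m z s + C * eN G ν N z := by
  classical
  have := hν.prob
  induction N generalizing z s with
  | zero =>
    have e1 : FN G ν (Vv G ν m) 0 z s.U = 0 := by rw [FN, if_pos hz]
    have e2 : eN G ν 0 z = 1 := by rw [eN, if_pos hz]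
    rw [e1, e2, zero_add, mul_one]
    exact (hQ.bdd m z s hz hs).trans le_add_self
  | succ N ih =>
    have e1 : FN G ν (Vv G ν m) (N + 1) z s.U =
        ∫⁻ y, FN G ν (Vv G ν m) N (z + y) (upd G (z + y) s.U) ∂ν := by
      rw [FN, if_pos hz]
    have e2 : eN G ν (N + 1) z = ∫⁻ y, eN G ν N (z + y) ∂ν := by rw [eN, if_pos hz]
    have hmP : Measurable (fun y => Pa m (z + y) (updH G (z + y) s)) :=
      (hP.meas m s).comp (measurable_const_add z)
    have hmQ : Measurable (fun y => Qa m (z + y) (updH G (z + y) s)) :=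
      (hQ.meas m s).comp (measurable_const_add z)
    have h1 : ∫⁻ y, (FN G ν (Vv G ν m) N (z + y) (upd G (z + y) s.U) +
        Qa m (z + y) (updH G (z + y) s)) ∂ν ≤
        ∫⁻ y, (1 + Pa m (z + y) (updH G (z + y) s) + C * eN G ν N (z + y)) ∂ν := by
      refine lintegral_mono_ae ?_
      filter_upwards [hν.bdd] with y hy
      have hv := updH_val G hG (z + y) s
      by_cases hz' : ‖z + y‖ < G.R'
      · exact ih (z + y) (updH G (z + y) s) hz' hv
      · have hz1 := not_lt.1 hz'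
        have hz2 : ‖z + y‖ < G.R' + G.h := lt_of_le_of_lt (norm_add_le z y) (by linarith)
        rw [CA_FN_out G ν _ N (z + y) _ hz1]
        have hid := updH_idle G hG (z + y) s hz1
        have h2 := hQ.exit m (z + y) s hz1 hz2
        have h3 := hP.exit m (z + y) s hz1 hz2
        have h4 := Hm (updH G (z + y) s) hid
        calc Vv G ν m (upd G (z + y) s.U) + Qa m (z + y) (updH G (z + y) s)
            ≤ Vv G ν m (upd G (z + y) s.U) + Qi m (updH G (z + y) s) := by gcongr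
          _ ≤ 1 + Pi m (updH G (z + y) s) := h4
          _ ≤ 1 + Pa m (z + y) (updH G (z + y) s) := by gcongr
          _ ≤ _ := le_self_add
    have hmP1 : Measurable (fun y => 1 + Pa m (z + y) (updH G (z + y) s)) :=
      hmP.const_add 1
    have e3 : ∫⁻ y, (1 + Pa m (z + y) (updH G (z + y) s) + C * eN G ν N (z + y)) ∂ν =
        1 + ∫⁻ y, Pa m (z + y) (updH G (z + y) s) ∂ν + C * ∫⁻ y, eN G ν N (z + y) ∂ν := by
      rw [lintegral_add_left hmP1, lintegral_add_left measurable_const,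
        lintegral_const_mul' _ _ hC]
      simp
    rw [lintegral_add_right _ hmQ, e3] at h1
    rw [e1, e2]
    calc ∫⁻ y, FN G ν (Vv G ν m) N (z + y) (upd G (z + y) s.U) ∂ν + Qa m z s
        ≤ ∫⁻ y, FN G ν (Vv G ν m) N (z + y) (upd G (z + y) s.U) ∂ν +
          ∫⁻ y, Qa m (z + y) (updH G (z + y) s) ∂ν := by
            gcongr
            exact hQ.step m z s hz hs
      _ ≤ _ := h1
      _ ≤ _ := by
            gcongr
            exact hP.step m z s hz hs

theorem CA_inside (G : Geo) (hG : G.OK) {ν : Measure ℂ} (hν : RotStep ν G.h)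
    {Pa Qa : ℕ → ℂ → HS G.J → ℝ≥0∞} {Pi Qi : ℕ → HS G.J → ℝ≥0∞} {C : ℝ≥0∞} (hC : C ≠ ⊤)
    (hP : SuperC G ν Pa Pi) (hQ : SubC G ν Qa Qi C) (m : ℕ)
    (Hm : ∀ s : HS G.J, Idle G s → Vv G ν m s.U + Qi m s ≤ 1 + Pi m s) (z : ℂ)
    (s : HS G.J) (hz : ‖z‖ < G.R') (hs : Val G z s) :
    Fv G ν (Vv G ν m) z s.U + Qa m z s ≤ 1 + Pa m z s := by
  have h1 : ∀ N, FN G ν (Vv G ν m) N z s.U + Qa m z s ≤ 1 + Pa m z s := by
    intro N
    have h2 : Tendsto (fun N' => 1 + Pa m z s + C * eN G ν N' z) atTop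
        (𝓝 (1 + Pa m z s + C * 0)) :=
      (ENNReal.Tendsto.const_mul (CA_eN_tendsto G hG hν z) (Or.inr hC)).const_add _
    rw [mul_zero, add_zero] at h2
    refine ge_of_tendsto h2 ?_
    filter_upwards [eventually_ge_atTop N] with N' hN'
    calc FN G ν (Vv G ν m) N z s.U + Qa m z s
        ≤ FN G ν (Vv G ν m) N' z s.U + Qa m z s := by
          gcongr
          exact CA_FN_mono G ν _ z s.U hN'
      _ ≤ _ := CA_finite G hG hν hC hP hQ m Hm N' z s hz hs
  rw [Fv, ENNReal.iSup_add]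
  exact iSup_le h1

open Classical in
theorem compare (G : Geo) (hG : G.OK) {ν : Measure ℂ} (hν : RotStep ν G.h)
    {Pa Qa : ℕ → ℂ → HS G.J → ℝ≥0∞} {Pi Qi : ℕ → HS G.J → ℝ≥0∞} {C : ℝ≥0∞} (hC : C ≠ ⊤)
    (hP : SuperC G ν Pa Pi) (hQ : SubC G ν Qa Qi C)
    (init : ∀ s : HS G.J, (if s.U = ∅ then 1 else 0) + Qi 0 s ≤ 1 + Pi 0 s) (n : ℕ)
    (s : HS G.J) (hs : Idle G s) : Vv G ν n s.U + Qi n s ≤ 1 + Pi n s := by
  have hr := CA_r_pos G hG
  have hb := hG.big
  induction n generalizing s with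
  | zero =>
    have h1 := init s
    simp only [Vv]
    convert h1
  | succ m ih =>
    have hne : ∃ z : ℂ, G.r - G.h ≤ ‖z‖ ∧ ‖z‖ ≤ G.r := by
      refine ⟨(G.r : ℂ), ?_, ?_⟩
      · rw [Complex.norm_real, Real.norm_of_nonneg hr.le]; linarith [hG.hpos]
      · rw [Complex.norm_real, Real.norm_of_nonneg hr.le]
    simp only [Vv]
    rw [ENNReal.biSup_add' hne]
    refine iSup₂_le fun z hz => ?_
    have hzR : ‖z‖ < G.R' := by linarith [hz.2]
    have h2 := CA_inside G hG hν hC hP hQ m (fun s hs => ih s hs) z (updH G z s) hzR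
      (updH_val G hG z s)
    calc Fv G ν (Vv G ν m) z (upd G z s.U) + Qi (m + 1) s
        ≤ Fv G ν (Vv G ν m) z (upd G z s.U) + Qa m z (updH G z s) := by
          gcongr
          exact hQ.ring m z s hs hz.1 hz.2
      _ ≤ 1 + Pa m z (updH G z s) := h2
      _ ≤ _ := by
          gcongr
          exact hP.ring m z s hs hz.1 hz.2

end Pool.Agent.helper32.EB
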